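import Mathlib

set_option autoImplicit false
set_option linter.unusedSectionVars false

/-! An abstract limit law for rare points. -/

open Finset Filter Topology

namespace Pool.Agent.R414.DV

lemma tendsto_of_approx {f : ℕ → ℝ} {L : ℝ}
    (h : ∀ ε : ℝ, 0 < ε → ∃ (g : ℕ → ℝ) (L' : ℝ), Tendsto g atTop (𝓝 L') ∧ |L' - L| ≤ ε ∧
      ∀ᶠ H in atTop, |f H - g H| ≤ ε) : Tendsto f atTop (𝓝 L) := by
  rw [Metric.tendsto_atTop]
  intro ε hε
  obtain ⟨g, L', h1, h2, h3⟩ := h (ε / 4) (by linarith)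
  rw [Metric.tendsto_atTop] at h1
  obtain ⟨N, hN⟩ := h1 (ε / 4) (by linarith)
  obtain ⟨N', hN'⟩ := eventually_atTop.1 h3
  refine ⟨max N N', fun n hn => ?_⟩
  have h4 := hN n ((le_max_left _ _).trans hn)
  have h5 := hN' n ((le_max_right _ _).trans hn)
  rw [Real.dist_eq] at h4 ⊢
  have h6 : f n - L = (f n - g n) + (g n - L') + (L' - L) := by ring
  rw [h6]
  have h7 := abs_add_three (f n - g n) (g n - L') (L' - L)
  linarith

lemma bonf {α β : Type} [DecidableEq α] [DecidableEq β] (P : Finset α)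
    (A : α → Finset β) (M : ℝ)
    (hM : ∀ p ∈ P, ∀ q ∈ P, p ≠ q → ((A p ∩ A q).card : ℝ) ≤ M) (hM0 : 0 ≤ M) :
    ∑ p ∈ P, ((A p).card : ℝ) - (P.card : ℝ) ^ 2 * M ≤ ((P.biUnion A).card : ℝ) := by
  classical
  obtain ⟨B, hB⟩ : ∃ B : α → Finset β, B = fun p => A p \ (P.erase p).biUnion A := ⟨_, rfl⟩
  have hsub : P.biUnion B ⊆ P.biUnion A := by
    apply biUnion_mono
    intro p _
    rw [hB]
    exact sdiff_subset
  have hdisj : ((P : Finset α) : Set α).PairwiseDisjoint B := by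
    intro p hp q hq hpq
    rw [Function.onFun, Finset.disjoint_left]
    intro x hx hx'
    rw [hB] at hx hx'
    simp only at hx hx'
    rw [Finset.mem_sdiff] at hx hx'
    apply hx.2
    rw [mem_biUnion]
    exact ⟨q, mem_erase.2 ⟨Ne.symm hpq, hq⟩, hx'.1⟩
  have h1 : ((P.biUnion B).card : ℝ) ≤ (P.biUnion A).card := by
    exact_mod_cast card_le_card hsub
  refine le_trans ?_ h1
  rw [card_biUnion hdisj]
  push_cast
  have h2 : ∀ p ∈ P, ((A p).card : ℝ) - P.card * M ≤ ((B p).card : ℝ) := by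
    intro p hp
    have h3 : (A p).card ≤ (B p).card + ((P.erase p).biUnion fun q => A p ∩ A q).card := by
      have h4 : A p ⊆ B p ∪ (P.erase p).biUnion fun q => A p ∩ A q := by
        intro x hx
        rw [mem_union]
        by_cases h5 : x ∈ (P.erase p).biUnion A
        · right
          rw [mem_biUnion] at h5 ⊢
          obtain ⟨q, hq, hxq⟩ := h5
          exact ⟨q, hq, mem_inter.2 ⟨hx, hxq⟩⟩
        · left
          rw [hB]
          exact Finset.mem_sdiff.2 ⟨hx, h5⟩
      exact (card_le_card h4).trans (card_union_le _ _)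
    have h6 : (((P.erase p).biUnion fun q => A p ∩ A q).card : ℝ) ≤ P.card * M := by
      have h7 : (((P.erase p).biUnion fun q => A p ∩ A q).card : ℝ) ≤
          ∑ q ∈ P.erase p, ((A p ∩ A q).card : ℝ) := by
        exact_mod_cast card_biUnion_le
      refine h7.trans ?_
      have h8 := sum_le_card_nsmul (P.erase p) (fun q => ((A p ∩ A q).card : ℝ)) M (by
        intro q hq
        rw [mem_erase] at hq
        exact hM p hp q hq.2 (Ne.symm hq.1))
      refine h8.trans ?_
      rw [nsmul_eq_mul]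
      have h9 : ((P.erase p).card : ℝ) ≤ P.card := by
        exact_mod_cast card_le_card (erase_subset p P)
      gcongr
    have h10 : ((A p).card : ℝ) ≤ (B p).card + (((P.erase p).biUnion fun q => A p ∩ A q).card : ℝ) := by
      exact_mod_cast h3
    linarith
  have h11 := sum_le_sum h2
  rw [sum_sub_distrib, sum_const, nsmul_eq_mul] at h11
  refine le_trans (le_of_eq ?_) h11
  ring

/-- the box -/
noncomputable def Bx (T : ℕ) : Finset (ℤ × ℤ) := Icc (-(T : ℤ)) T ×ˢ Icc (-(T : ℤ)) T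

lemma mem_Bx {T : ℕ} {P : ℤ × ℤ} : P ∈ Bx T ↔ ¬ T < max P.1.natAbs P.2.natAbs := by
  unfold Bx
  rw [mem_product, mem_Icc, mem_Icc]
  omega

lemma tendsto_Bx {f : ℤ × ℤ → ℝ} (hf : Summable f) :
    Tendsto (fun T => ∑ P ∈ Bx T, f P) atTop (𝓝 (∑' P, f P)) := by
  have h1 : Tendsto Bx atTop atTop := by
    apply tendsto_atTop_finset_of_monotone
    · intro S T hST P hP
      rw [mem_Bx] at hP ⊢
      omega
    · intro P
      refine ⟨max P.1.natAbs P.2.natAbs, ?_⟩
      rw [mem_Bx]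
      omega
  exact hf.hasSum.comp h1

section

variable {β : Type} [DecidableEq β] (box : ℕ → Finset β) (z : β → ℤ × ℤ → Prop) (D : ℕ → ℝ)
  (lam : ℤ × ℤ → ℝ) (δ : ℕ → ℝ)

open Classical in
theorem limit_law (hD : ∀ H, 0 < D H) (hlam : ∀ P, 0 ≤ lam P)
    (hsing : ∀ P, Tendsto (fun H => (((box H).filter fun a => z a P).card : ℝ) / D H) atTop
      (𝓝 (lam P)))
    (hpair : ∀ P Q, P ≠ Q → ∀ H, (((box H).filter fun a => z a P ∧ z a Q).card : ℝ) ≤
      D H / (2 * (H : ℝ) + 1))
    (hδ : Tendsto δ atTop (𝓝 0))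
    (htail : ∀ T, ∃ H₀ : ℕ, ∀ H, H₀ ≤ H → ∀ S ⊆ box H,
      (∀ a ∈ S, ∃ P : ℤ × ℤ, z a P ∧ T < max P.1.natAbs P.2.natAbs) → (S.card : ℝ) ≤ δ T * D H) :
    Summable lam ∧
    (∀ B : Set (ℤ × ℤ), Tendsto (fun H => (((box H).filter fun a => ∃ P ∈ B, z a P).card : ℝ) /
      D H) atTop (𝓝 (∑' P, B.indicator lam P))) ∧
    Tendsto (fun H => (((box H).filter fun a => ∃ P Q, P ≠ Q ∧ z a P ∧ z a Q).card : ℝ) / D H)
      atTop (𝓝 0) := by
  obtain ⟨A, hA⟩ : ∃ A : ℕ → ℤ × ℤ → Finset β, A = fun H P => (box H).filter fun a => z a P :=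
    ⟨_, rfl⟩
  have hX0 : ∀ H : ℕ, (0 : ℝ) < 2 * (H : ℝ) + 1 := fun H => by positivity
  have hXinv : ∀ c : ℝ, Tendsto (fun H : ℕ => c / (2 * (H : ℝ) + 1)) atTop (𝓝 0) := by
    intro c
    apply Tendsto.div_atTop tendsto_const_nhds
    apply tendsto_atTop_add_const_right
    exact Tendsto.const_mul_atTop two_pos tendsto_natCast_atTop_atTop
  have hint : ∀ H, ∀ P Q, P ≠ Q → ((A H P ∩ A H Q).card : ℝ) ≤ D H / (2 * (H : ℝ) + 1) := by
    intro H P Q hPQ
    have h1 : A H P ∩ A H Q = (box H).filter fun a => z a P ∧ z a Q := by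
      rw [hA]
      simp only
      rw [filter_and]
    rw [h1]
    exact hpair P Q hPQ H
  have hbonf : ∀ H, ∀ F : Finset (ℤ × ℤ), ∑ P ∈ F, ((A H P).card : ℝ) / D H -
      (F.card : ℝ) ^ 2 / (2 * (H : ℝ) + 1) ≤ ((F.biUnion (A H)).card : ℝ) / D H := by
    intro H F
    have h1 := bonf F (A H) (D H / (2 * (H : ℝ) + 1)) (fun p _ q _ h => hint H p q h)
      (div_nonneg (hD H).le (hX0 H).le)
    rw [le_div_iff₀ (hD H)]
    refine le_trans (le_of_eq ?_) h1
    have h2 := (hD H).ne'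
    have h3 := (hX0 H).ne'
    rw [← sum_div]
    field_simp
  have hunion : ∀ H, ∀ F : Finset (ℤ × ℤ), ((F.biUnion (A H)).card : ℝ) / D H ≤
      ∑ P ∈ F, ((A H P).card : ℝ) / D H := by
    intro H F
    rw [← sum_div]
    apply div_le_div_of_nonneg_right _ (hD H).le
    exact_mod_cast card_biUnion_le
  have hsing' : ∀ F : Finset (ℤ × ℤ), Tendsto (fun H => ∑ P ∈ F, ((A H P).card : ℝ) / D H) atTop
      (𝓝 (∑ P ∈ F, lam P)) := by
    intro F
    apply tendsto_finset_sum
    intro P _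
    have := hsing P
    rw [hA]
    exact this
  -- finite sums outside a box
  have hout : ∀ T : ℕ, ∀ G : Finset (ℤ × ℤ), (∀ P ∈ G, T < max P.1.natAbs P.2.natAbs) →
      ∑ P ∈ G, lam P ≤ δ T := by
    intro T G hG
    obtain ⟨H₀, hH₀⟩ := htail T
    have h1 : Tendsto (fun H => ∑ P ∈ G, ((A H P).card : ℝ) / D H -
        (G.card : ℝ) ^ 2 / (2 * (H : ℝ) + 1)) atTop (𝓝 (∑ P ∈ G, lam P - 0)) :=
      (hsing' G).sub (hXinv _)
    rw [sub_zero] at h1
    apply le_of_tendsto h1
    rw [eventually_atTop]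
    refine ⟨H₀, fun H hH => ?_⟩
    refine (hbonf H G).trans ?_
    rw [div_le_iff₀ (hD H)]
    apply hH₀ H hH
    · intro a ha
      rw [mem_biUnion] at ha
      obtain ⟨P, _, ha⟩ := ha
      rw [hA] at ha
      exact (mem_filter.1 ha).1
    · intro a ha
      rw [mem_biUnion] at ha
      obtain ⟨P, hP, ha⟩ := ha
      rw [hA] at ha
      exact ⟨P, (mem_filter.1 ha).2, hG P hP⟩
  have hsum : Summable lam := by
    apply summable_of_sum_le (c := ∑ P ∈ Bx 0, lam P + δ 0) hlam
    intro G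
    have h1 : ∑ P ∈ G, lam P = ∑ P ∈ G.filter (· ∈ Bx 0), lam P +
        ∑ P ∈ G.filter (¬ · ∈ Bx 0), lam P := (sum_filter_add_sum_filter_not _ _ _).symm
    rw [h1]
    apply add_le_add
    · apply sum_le_sum_of_subset_of_nonneg
      · intro P hP
        exact (mem_filter.1 hP).2
      · intro P _ _
        exact hlam P
    · apply hout 0
      intro P hP
      have := (mem_filter.1 hP).2
      rw [mem_Bx] at this
      exact not_not.1 this
  refine ⟨hsum, ?_, ?_⟩
  · intro B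
    apply tendsto_of_approx
    intro ε hε
    have h1 := tendsto_Bx (hsum.indicator B)
    have h2 : ∀ᶠ T in atTop, |∑ P ∈ Bx T, B.indicator lam P - ∑' P, B.indicator lam P| ≤ ε := by
      rw [Metric.tendsto_atTop] at h1
      obtain ⟨N, hN⟩ := h1 ε hε
      rw [eventually_atTop]
      exact ⟨N, fun T hT => by
        have := hN T hT
        rw [Real.dist_eq] at this
        exact this.le⟩
    have h3 : ∀ᶠ T in atTop, δ T ≤ ε / 2 := by
      exact (hδ.eventually (ge_mem_nhds (by linarith : (0 : ℝ) < ε / 2)))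
    obtain ⟨T, hT1, hT2⟩ := (h2.and h3).exists
    obtain ⟨F, hF⟩ : ∃ F : Finset (ℤ × ℤ), F = (Bx T).filter (· ∈ B) := ⟨_, rfl⟩
    have hFsum : ∑ P ∈ F, lam P = ∑ P ∈ Bx T, B.indicator lam P := by
      rw [hF, sum_filter]
      apply sum_congr rfl
      intro P _
      rw [Set.indicator_apply]
    refine ⟨fun H => ∑ P ∈ F, ((A H P).card : ℝ) / D H, ∑ P ∈ F, lam P, hsing' F, ?_, ?_⟩
    · rw [hFsum]
      exact hT1
    · obtain ⟨H₀, hH₀⟩ := htail T
      have h4 : ∀ᶠ H : ℕ in atTop, (F.card : ℝ) ^ 2 / (2 * (H : ℝ) + 1) ≤ ε / 2 :=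
        (hXinv _).eventually (ge_mem_nhds (by linarith : (0 : ℝ) < ε / 2))
      filter_upwards [h4, eventually_ge_atTop H₀] with H h5 h6
      have h7 := hbonf H F
      have h8 := hunion H F
      have h9 : ((F.biUnion (A H)).card : ℝ) / D H ≤
          (((box H).filter fun a => ∃ P ∈ B, z a P).card : ℝ) / D H := by
        apply div_le_div_of_nonneg_right _ (hD H).le
        have : F.biUnion (A H) ⊆ (box H).filter fun a => ∃ P ∈ B, z a P := by
          intro a ha
          rw [mem_biUnion] at ha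
          obtain ⟨P, hP, ha⟩ := ha
          rw [hA] at ha
          rw [hF] at hP
          rw [mem_filter]
          exact ⟨(mem_filter.1 ha).1, P, (mem_filter.1 hP).2, (mem_filter.1 ha).2⟩
        exact_mod_cast card_le_card this
      have h10 : (((box H).filter fun a => ∃ P ∈ B, z a P).card : ℝ) / D H ≤
          ((F.biUnion (A H)).card : ℝ) / D H + δ T := by
        have hs : ((box H).filter fun a => ∃ P ∈ B, z a P) ⊆ F.biUnion (A H) ∪
            (box H).filter fun a => ∃ P : ℤ × ℤ, z a P ∧ T < max P.1.natAbs P.2.natAbs := by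
          intro a ha
          rw [mem_filter] at ha
          obtain ⟨ha1, P, hPB, hP⟩ := ha
          rw [mem_union]
          by_cases hPT : P ∈ Bx T
          · left
            rw [mem_biUnion]
            refine ⟨P, ?_, ?_⟩
            · rw [hF, mem_filter]
              exact ⟨hPT, hPB⟩
            · rw [hA]
              exact mem_filter.2 ⟨ha1, hP⟩
          · right
            rw [mem_Bx, not_not] at hPT
            exact mem_filter.2 ⟨ha1, P, hP, hPT⟩
        have h11 := (Nat.cast_le (α := ℝ)).2 ((card_le_card hs).trans (card_union_le _ _))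
        push_cast at h11
        have h12 := hH₀ H h6 ((box H).filter fun a => ∃ P : ℤ × ℤ, z a P ∧
          T < max P.1.natAbs P.2.natAbs) (filter_subset _ _) (fun a ha => (mem_filter.1 ha).2)
        rw [div_add' _ _ _ (hD H).ne']
        apply div_le_div_of_nonneg_right _ (hD H).le
        linarith
      rw [abs_le]
      constructor
      · linarith
      · linarith
  · apply tendsto_of_approx
    intro ε hε
    have h3 : ∀ᶠ T in atTop, δ T ≤ ε / 2 :=
      (hδ.eventually (ge_mem_nhds (by linarith : (0 : ℝ) < ε / 2)))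
    obtain ⟨T, hT2⟩ := h3.exists
    refine ⟨fun _ => 0, 0, tendsto_const_nhds, by rw [sub_self, abs_zero]; exact hε.le, ?_⟩
    obtain ⟨H₀, hH₀⟩ := htail T
    have h4 : ∀ᶠ H : ℕ in atTop, ((Bx T).card : ℝ) ^ 2 / (2 * (H : ℝ) + 1) ≤ ε / 2 :=
      (hXinv _).eventually (ge_mem_nhds (by linarith : (0 : ℝ) < ε / 2))
    filter_upwards [h4, eventually_ge_atTop H₀] with H h5 h6
    rw [sub_zero, abs_of_nonneg (div_nonneg (Nat.cast_nonneg _) (hD H).le)]
    have hs : ((box H).filter fun a => ∃ P Q, P ≠ Q ∧ z a P ∧ z a Q) ⊆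
        ((Bx T ×ˢ Bx T).filter fun p => p.1 ≠ p.2).biUnion (fun p => A H p.1 ∩ A H p.2) ∪
        (box H).filter fun a => ∃ P : ℤ × ℤ, z a P ∧ T < max P.1.natAbs P.2.natAbs := by
      intro a ha
      rw [mem_filter] at ha
      obtain ⟨ha1, P, Q, hPQ, hP, hQ⟩ := ha
      rw [mem_union]
      by_cases hPT : P ∈ Bx T
      · by_cases hQT : Q ∈ Bx T
        · left
          rw [mem_biUnion]
          refine ⟨(P, Q), mem_filter.2 ⟨mem_product.2 ⟨hPT, hQT⟩, hPQ⟩, ?_⟩
          rw [hA, mem_inter]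
          exact ⟨mem_filter.2 ⟨ha1, hP⟩, mem_filter.2 ⟨ha1, hQ⟩⟩
        · right
          rw [mem_Bx, not_not] at hQT
          exact mem_filter.2 ⟨ha1, Q, hQ, hQT⟩
      · right
        rw [mem_Bx, not_not] at hPT
        exact mem_filter.2 ⟨ha1, P, hP, hPT⟩
    have h11 := (Nat.cast_le (α := ℝ)).2 ((card_le_card hs).trans (card_union_le _ _))
    push_cast at h11
    have h12 := hH₀ H h6 ((box H).filter fun a => ∃ P : ℤ × ℤ, z a P ∧
      T < max P.1.natAbs P.2.natAbs) (filter_subset _ _) (fun a ha => (mem_filter.1 ha).2)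
    have h13 : ((((Bx T ×ˢ Bx T).filter fun p => p.1 ≠ p.2).biUnion
        (fun p => A H p.1 ∩ A H p.2)).card : ℝ) ≤
        ((Bx T).card : ℝ) ^ 2 * (D H / (2 * (H : ℝ) + 1)) := by
      have h14 : ((((Bx T ×ˢ Bx T).filter fun p => p.1 ≠ p.2).biUnion
        (fun p => A H p.1 ∩ A H p.2)).card : ℝ) ≤
        ∑ p ∈ (Bx T ×ˢ Bx T).filter (fun p => p.1 ≠ p.2), ((A H p.1 ∩ A H p.2).card : ℝ) := by
        exact_mod_cast card_biUnion_le
      refine h14.trans ?_
      have h15 := sum_le_card_nsmul ((Bx T ×ˢ Bx T).filter (fun p => p.1 ≠ p.2))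
        (fun p => ((A H p.1 ∩ A H p.2).card : ℝ)) (D H / (2 * (H : ℝ) + 1)) (by
          intro p hp
          exact hint H p.1 p.2 (mem_filter.1 hp).2)
      refine h15.trans ?_
      rw [nsmul_eq_mul]
      apply mul_le_mul_of_nonneg_right _ (div_nonneg (hD H).le (hX0 H).le)
      have h16 : ((Bx T ×ˢ Bx T).filter (fun p => p.1 ≠ p.2)).card ≤ (Bx T).card ^ 2 := by
        refine (card_filter_le _ _).trans ?_
        rw [card_product, sq]
      exact_mod_cast h16
    rw [div_le_iff₀ (hD H)]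
    have h17 : ((Bx T).card : ℝ) ^ 2 * (D H / (2 * (H : ℝ) + 1)) ≤ ε / 2 * D H := by
      have h18 := mul_le_mul_of_nonneg_right h5 (hD H).le
      refine le_trans (le_of_eq ?_) h18
      ring
    have h19 : δ T * D H ≤ ε / 2 * D H := mul_le_mul_of_nonneg_right hT2 (hD H).le
    linarith

end

end Pool.Agent.R414.DV
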