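import Pool.Agent.R414.DV.Pl
import Pool.Agent.R414.DV.As

set_option autoImplicit false
set_option linter.unusedSectionVars false

/-! The limit law for the curves `F₀ + R`. -/

open Finset Filter Topology MeasureTheory

namespace Pool.Agent.R414.DV

open Pool.Agent.R414.DN Pool.Agent.R414.DU

section

variable {ι : Type} [Fintype ι] [DecidableEq ι]

lemma tendsto_cntv' (m : ι → ℤ) (v : ℤ) :
    Tendsto (fun H : ℕ => (cntv m v H : ℝ) / (2 * (H : ℝ) + 1) ^ Fintype.card ι) atTop
      (𝓝 (volume.real (slab m))) := by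
  by_cases h : ∃ j, m j ≠ 0
  · exact tendsto_cntv m v (Or.inl h)
  · push Not at h
    refine (tendsto_cnt m).congr' ?_
    filter_upwards [eventually_ge_atTop v.natAbs] with H hH
    unfold cnt cntv
    congr 2
    apply congrArg card
    apply filter_congr
    intro c _
    have h1 : ∑ i, c i * m i = 0 := sum_eq_zero fun i _ => by rw [h i, mul_zero]
    rw [h1, sub_zero, abs_zero, Int.abs_eq_natAbs]
    constructor
    · intro _
      exact_mod_cast hH
    · intro _
      positivity

end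

variable {e : ℕ}

lemma tendsto_through' (x y v : ℤ) :
    Tendsto (fun H : ℕ => (((ibox ↥(I e) H).filter fun a => Fv (co a) e x y = v).card : ℝ) /
      (2 * (H : ℝ) + 1) ^ (MM e - 1)) atTop (𝓝 (volume.real (slab (mono (e + 1) x y)))) := by
  have h1 := tendsto_cntv' (mono (e + 1) x y) v
  rw [card_mon] at h1
  refine h1.congr fun H => ?_
  rw [card_through]

/-- splitting off the leading form -/
lemma exists_low {F₀ : MvPolynomial (Fin 2) ℤ} (hF : F₀.totalDegree ≤ e + 1) :
    ∃ l : Cf e, F₀ = MvPolynomial.homogeneousComponent (e + 1) F₀ + poly l := by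
  refine ⟨fun p => F₀.coeff (mo p.1), ?_⟩
  ext m
  rw [MvPolynomial.coeff_add, coeff_poly, MvPolynomial.coeff_homogeneousComponent]
  have hdeg : m.degree = m 0 + m 1 := by rw [Finsupp.degree_eq_sum, Fin.sum_univ_two]
  have hmo : mo (m 0 + m 1, m 0) = m := by
    ext i
    fin_cases i
    · exact mo_zero _
    · have h1 := mo_one (m 0 + m 1, m 0)
      simp only at h1
      refine Eq.trans h1 ?_
      simp
  rw [hdeg]
  by_cases h1 : m 0 + m 1 = e + 1
  · have h2 : (m 0 + m 1, m 0) ∉ I e := by rw [mem_I]; omega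
    rw [if_pos h1]
    unfold co
    rw [dif_neg h2, add_zero]
  · rw [if_neg h1, zero_add]
    by_cases h2 : m 0 + m 1 ≤ e
    · have h3 : (m 0 + m 1, m 0) ∈ I e := by rw [mem_I]; omega
      rw [co_of_mem _ h3]
      simp only
      rw [hmo]
    · have h3 : (m 0 + m 1, m 0) ∉ I e := by rw [mem_I]; omega
      unfold co
      rw [dif_neg h3]
      by_contra h4
      have h5 := MvPolynomial.le_totalDegree (MvPolynomial.mem_support_iff.2 h4)
      have h6 : (m.sum fun _ e => e) = m 0 + m 1 := by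
        rw [Finsupp.sum_fintype _ _ (fun _ => rfl), Fin.sum_univ_two]
      rw [h6] at h5
      omega

lemma co_add' (l a : Cf e) (k i : ℕ) : co (l + a) k i = co l k i + co a k i := by
  unfold co
  split_ifs
  · rfl
  · rw [add_zero]

lemma poly_add' (l a : Cf e) : poly (l + a) = poly l + poly a := by
  ext m
  rw [MvPolynomial.coeff_add, coeff_poly, coeff_poly, coeff_poly, co_add']

open Classical in
/-- **The limit law.** -/
theorem main_law (he : 9 ≤ e) {F₀ : MvPolynomial (Fin 2) ℤ} (hF : F₀.totalDegree ≤ e + 1)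
    (hirr : Irreducible (MvPolynomial.map (Int.castRingHom ℚ)
      (MvPolynomial.homogeneousComponent (e + 1) F₀))) :
    Summable (fun P : ℤ × ℤ => volume.real (slab (mono (e + 1) P.1 P.2))) ∧
    (∀ B : Set (ℤ × ℤ), Tendsto (fun H => (((ibox ↥(I e) H).filter fun a => ∃ P ∈ B,
      MvPolynomial.eval ![P.1, P.2] (F₀ + poly a) = 0).card : ℝ) /
      (2 * (H : ℝ) + 1) ^ (MM e - 1)) atTop
      (𝓝 (∑' P, B.indicator (fun P : ℤ × ℤ => volume.real (slab (mono (e + 1) P.1 P.2))) P))) ∧
    Tendsto (fun H => (((ibox ↥(I e) H).filter fun a => ∃ P Q : ℤ × ℤ, P ≠ Q ∧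
      MvPolynomial.eval ![P.1, P.2] (F₀ + poly a) = 0 ∧
      MvPolynomial.eval ![Q.1, Q.2] (F₀ + poly a) = 0).card : ℝ) /
      (2 * (H : ℝ) + 1) ^ (MM e - 1)) atTop (𝓝 0) := by
  obtain ⟨l, hl⟩ := exists_low hF
  obtain ⟨φ, hφ⟩ : ∃ φ, φ = MvPolynomial.homogeneousComponent (e + 1) F₀ := ⟨_, rfl⟩
  have hφh : φ.IsHomogeneous (e + 1) := by
    rw [hφ]
    exact MvPolynomial.homogeneousComponent_isHomogeneous _ _
  rw [← hφ] at hl hirr
  obtain ⟨h0, hh0⟩ : ∃ h0 : ℕ, ∀ p, |l p| ≤ (h0 : ℤ) := by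
    refine ⟨∑ p, (l p).natAbs, fun p => ?_⟩
    rw [Int.abs_eq_natAbs]
    exact_mod_cast single_le_sum (f := fun p => (l p).natAbs) (fun _ _ => Nat.zero_le _)
      (mem_univ p)
  have hMM : 2 ≤ MM e := by
    rw [MM_eq]
    have : (9 + 1) * (9 + 2) ≤ (e + 1) * (e + 2) := by gcongr
    omega
  have hev : ∀ (a : Cf e) (P : ℤ × ℤ), MvPolynomial.eval ![P.1, P.2] (F₀ + poly a) = 0 ↔
      Fv (co a) e P.1 P.2 = - MvPolynomial.eval ![P.1, P.2] F₀ := by
    intro a P
    rw [map_add, eval_poly]
    constructor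
    · intro h
      linarith
    · intro h
      rw [h]
      ring
  apply limit_law (fun H => ibox ↥(I e) H)
    (fun a P => MvPolynomial.eval ![P.1, P.2] (F₀ + poly a) = 0)
    (fun H => (2 * (H : ℝ) + 1) ^ (MM e - 1)) _
    (fun T => 3 * (K2 (e + 1) / ((T : ℝ) + 1) ^ (e - 2)))
  · intro H
    positivity
  · intro P
    exact (slab_pos _).le
  · intro P
    have h1 := tendsto_through' (e := e) P.1 P.2 (- MvPolynomial.eval ![P.1, P.2] F₀)
    refine h1.congr fun H => ?_
    congr 2
    apply congrArg card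
    ext a
    simp only [mem_filter, hev a P]
  · intro P Q hPQ H
    have h1 := card_two_values (e := e) (by omega) (H := H)
      (s := - MvPolynomial.eval ![P.1, P.2] F₀) (s' := - MvPolynomial.eval ![Q.1, Q.2] F₀)
      (x := P.1) (y := P.2) (x' := Q.1) (y' := Q.2) hPQ
    have h2 : ((ibox ↥(I e) H).filter fun a =>
        MvPolynomial.eval ![P.1, P.2] (F₀ + poly a) = 0 ∧
        MvPolynomial.eval ![Q.1, Q.2] (F₀ + poly a) = 0).card ≤ (2 * H + 1) ^ (MM e - 2) := by
      refine le_trans (le_of_eq ?_) h1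
      apply congrArg card
      ext a
      simp only [mem_filter, hev a P, hev a Q]
    have h3 : (2 * (H : ℝ) + 1) ^ (MM e - 1) / (2 * (H : ℝ) + 1) =
        (2 * (H : ℝ) + 1) ^ (MM e - 2) := by
      have hX : (0 : ℝ) < 2 * (H : ℝ) + 1 := by positivity
      rw [div_eq_iff hX.ne', ← pow_succ]
      congr 1
      omega
    rw [h3]
    exact_mod_cast h2
  · have h1 : Tendsto (fun T : ℕ => ((T : ℝ) + 1) ^ (e - 2)) atTop atTop := by
      apply (tendsto_pow_atTop (by omega : e - 2 ≠ 0)).comp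
      apply tendsto_atTop_add_const_right
      exact tendsto_natCast_atTop_atTop
    have h2 := (Tendsto.div_atTop (tendsto_const_nhds (x := K2 (e + 1))) h1).const_mul 3
    rw [mul_zero] at h2
    exact h2
  · intro T
    obtain ⟨H₀, hH₀⟩ := upper_tail he hφh hirr T
    refine ⟨H₀ + 2 * (MM e - 1) * h0, fun H hH S hS hz => ?_⟩
    have h1 := hH₀ (H + h0) (by omega) (S.image fun a => l + a) (by
        intro b hb
        rw [mem_image] at hb
        obtain ⟨a, ha, rfl⟩ := hb
        rw [mem_ibox]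
        intro p
        have h2 := mem_ibox.1 (hS ha) p
        have h3 := abs_add_le (l p) (a p)
        have h4 := hh0 p
        push_cast
        simp only [Pi.add_apply]
        linarith) (by
        intro b hb
        rw [mem_image] at hb
        obtain ⟨a, ha, rfl⟩ := hb
        obtain ⟨P, h2, h3⟩ := hz a ha
        refine ⟨P.1, P.2, ?_, h3⟩
        rw [poly_add', ← add_assoc, ← hl]
        exact h2)
    rw [card_image_of_injective _ (fun a b h => add_left_cancel h)] at h1
    have h2 := pow_shift (n := MM e - 1) (h0 := h0) (H := H) (by omega)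
    refine h1.trans ?_
    have h3 : 0 ≤ K2 (e + 1) / ((T : ℝ) + 1) ^ (e - 2) := by
      unfold K2
      positivity
    calc K2 (e + 1) / ((T : ℝ) + 1) ^ (e - 2) * (2 * (((H + h0 : ℕ)) : ℝ) + 1) ^ (MM e - 1)
        ≤ K2 (e + 1) / ((T : ℝ) + 1) ^ (e - 2) * (3 * (2 * (H : ℝ) + 1) ^ (MM e - 1)) :=
          mul_le_mul_of_nonneg_left h2 h3
      _ = _ := by ring

end Pool.Agent.R414.DV
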