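import Pool.Agent.R414.DV.Sl
import Pool.Agent.R414.DU.Fz

set_option autoImplicit false
set_option linter.unusedSectionVars false

/-! Counting the curves through one integer point. -/

open Finset Filter Topology MeasureTheory

namespace Pool.Agent.R414.DV

open Pool.Agent.R414.DN Pool.Agent.R414.DU

/-- the exponents `(i, j)` of the nonconstant monomials of degree less than `d` -/
abbrev Mon (d : ℕ) : Type :=
  {p : Fin d × Fin d // 0 < p.1.val + p.2.val ∧ p.1.val + p.2.val < d}

/-- the values of these monomials at `(x, y)` -/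
def mono (d : ℕ) (x y : ℤ) (p : Mon d) : ℤ := x ^ p.1.1.val * y ^ p.1.2.val

section

variable {ι : Type} [Fintype ι] [DecidableEq ι]

lemma card_opt (m : ι → ℤ) (v : ℤ) (H : ℕ) :
    ((ibox (Option ι) H).filter fun a => a none + ∑ i, a (some i) * m i = v).card =
      cntv m v H := by
  classical
  unfold cntv
  apply card_bij (fun a _ => fun i => a (some i))
  · intro a ha
    rw [mem_filter, mem_ibox] at ha
    rw [mem_filter, mem_ibox]
    refine ⟨fun i => ha.1 (some i), ?_⟩
    have h1 : v - ∑ i, a (some i) * m i = a none := by linarith [ha.2]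
    rw [h1]
    exact ha.1 none
  · intro a ha b hb h
    rw [mem_filter] at ha hb
    have h1 : ∀ i, a (some i) = b (some i) := fun i => congrFun h i
    have h2 : ∑ i, a (some i) * m i = ∑ i, b (some i) * m i :=
      sum_congr rfl fun i _ => by rw [h1 i]
    funext i
    cases i with
    | none => linarith [ha.2, hb.2]
    | some i => exact h1 i
  · intro c hc
    rw [mem_filter, mem_ibox] at hc
    refine ⟨fun i => i.elim (v - ∑ i, c i * m i) c, ?_, ?_⟩
    · rw [mem_filter, mem_ibox]
      refine ⟨fun i => ?_, ?_⟩
      · cases i with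
        | none => exact hc.2
        | some i => exact hc.1 i
      · simp
    · funext i
      rfl

end

/-- the indices -/
noncomputable def eqv (e : ℕ) : Option (Mon (e + 1)) ≃ ↥(I e) where
  toFun q := match q with
    | none => ⟨(0, 0), by rw [mem_I]; exact ⟨Nat.zero_le _, le_rfl⟩⟩
    | some p => ⟨(p.1.1.val + p.1.2.val, p.1.1.val), by
        rw [mem_I]
        have := p.2
        omega⟩
  invFun p := if h : p.1 = (0, 0) then none else
    some ⟨(⟨p.1.2, by have := mem_I.1 p.2; omega⟩, ⟨p.1.1 - p.1.2, by
        have := mem_I.1 p.2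
        omega⟩), by
        have h1 := mem_I.1 p.2
        have h2 : ¬ (p.1.1 = 0 ∧ p.1.2 = 0) := fun h' => h (Prod.ext h'.1 h'.2)
        constructor
        · simp only
          omega
        · simp only
          omega⟩
  left_inv q := by
    cases q with
    | none => simp
    | some p =>
      have hp := p.2
      have h : ¬ ((p.1.1.val + p.1.2.val, p.1.1.val) = ((0 : ℕ), (0 : ℕ))) := by
        intro h
        rw [Prod.mk.injEq] at h
        omega
      simp only
      rw [dif_neg h]
      congr 1
      apply Subtype.ext
      apply Prod.ext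
      · rfl
      · apply Fin.ext
        simp
  right_inv p := by
    have h1 := mem_I.1 p.2
    by_cases h : p.1 = (0, 0)
    · simp only [h, dif_pos]
      exact Subtype.ext h.symm
    · simp only [h, dif_neg, not_false_iff]
      apply Subtype.ext
      apply Prod.ext
      · simp only
        omega
      · rfl

lemma card_mon (e : ℕ) : Fintype.card (Mon (e + 1)) = MM e - 1 := by
  have h1 := Fintype.card_congr (eqv e)
  rw [Fintype.card_option] at h1
  unfold MM
  omega

variable {e : ℕ}

lemma Fv_eqv (a : Cf e) (x y : ℤ) :
    Fv (co a) e x y = a (eqv e none) + ∑ p : Mon (e + 1), a (eqv e (some p)) * mono (e + 1) x y p := by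
  rw [Fv_sum, ← Equiv.sum_comp (eqv e), Fintype.sum_option]
  congr 1
  · simp [eqv]
  · apply sum_congr rfl
    intro p _
    unfold mono
    simp [eqv]

lemma card_through (x y v : ℤ) (H : ℕ) :
    ((ibox ↥(I e) H).filter fun a => Fv (co a) e x y = v).card =
      cntv (mono (e + 1) x y) v H := by
  classical
  rw [← card_opt]
  apply card_bij (fun a _ => fun q => a (eqv e q))
  · intro a ha
    rw [mem_filter, mem_ibox] at ha
    rw [mem_filter, mem_ibox]
    refine ⟨fun i => ha.1 _, ?_⟩
    rw [← ha.2, Fv_eqv]
  · intro a _ b _ h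
    funext p
    have h1 := congrFun h ((eqv e).symm p)
    simpa using h1
  · intro c hc
    rw [mem_filter, mem_ibox] at hc
    refine ⟨fun p => c ((eqv e).symm p), ?_, ?_⟩
    · rw [mem_filter, mem_ibox]
      refine ⟨fun i => hc.1 _, ?_⟩
      rw [Fv_eqv]
      have hs : ∀ q : Option (Mon (e + 1)), c ((eqv e).symm (eqv e q)) = c q := fun q =>
        congrArg c ((eqv e).symm_apply_apply q)
      rw [hs none, sum_congr rfl fun p _ => by rw [hs (some p)]]
      exact hc.2
    · funext q
      exact congrArg c ((eqv e).symm_apply_apply q)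

/-- the limit of the proportion, times `2 H + 1` -/
lemma tendsto_through (he : 1 ≤ e) {x y v : ℤ} (hv : x = 0 → y = 0 → v = 0) :
    Tendsto (fun H : ℕ => (((ibox ↥(I e) H).filter fun a => Fv (co a) e x y = v).card : ℝ) /
      (2 * (H : ℝ) + 1) ^ (MM e - 1)) atTop (𝓝 (volume.real (slab (mono (e + 1) x y)))) := by
  have h1 := tendsto_cntv (mono (e + 1) x y) v (by
    by_cases hx : x = 0
    · by_cases hy : y = 0
      · exact Or.inr (hv hx hy)
      · left
        refine ⟨⟨(⟨0, by omega⟩, ⟨1, by omega⟩), by simp; omega⟩, ?_⟩
        unfold mono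
        simpa using hy
    · left
      refine ⟨⟨(⟨1, by omega⟩, ⟨0, by omega⟩), by simp; omega⟩, ?_⟩
      unfold mono
      simpa using hx)
  rw [card_mon] at h1
  refine h1.congr fun H => ?_
  rw [card_through]

end Pool.Agent.R414.DV
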