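import Pool.Agent.R414.DN.Box

set_option autoImplicit false
set_option linter.unusedSectionVars false

/-! Volumes of slices of a cube as limits of counts of integer vectors. -/

open Finset Filter Topology MeasureTheory
open scoped Pointwise

namespace Pool.Agent.R414.DV

open Pool.Agent.R414.DN

section

variable {ι : Type} [Fintype ι] [DecidableEq ι]

/-- the part of the unit cube centred at the origin on which the linear form with coefficients `m` is
at most `1 / 2` in absolute value -/
def slab (m : ι → ℤ) : Set (ι → ℝ) := {u | (∀ i, |u i| ≤ 1 / 2) ∧ |∑ i, u i * m i| ≤ 1 / 2}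

lemma slab_closed (m : ι → ℤ) : IsClosed (slab m) := by
  have h : slab m = (⋂ i, {u : ι → ℝ | |u i| ≤ 1 / 2}) ∩ {u | |∑ i, u i * m i| ≤ 1 / 2} := by
    ext u
    simp only [slab, Set.mem_setOf_eq, Set.mem_inter_iff, Set.mem_iInter]
  rw [h]
  apply IsClosed.inter
  · apply isClosed_iInter
    intro i
    exact isClosed_le (by fun_prop) continuous_const
  · exact isClosed_le (by fun_prop) continuous_const

lemma slab_bounded (m : ι → ℤ) : Bornology.IsBounded (slab m) := by
  apply (Metric.isBounded_closedBall (x := (0 : ι → ℝ)) (r := 1 / 2)).subset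
  intro u hu
  rw [mem_closedBall_zero_iff, pi_norm_le_iff_of_nonneg (by norm_num)]
  intro i
  rw [Real.norm_eq_abs]
  exact hu.1 i

lemma slab_convex (m : ι → ℤ) : Convex ℝ (slab m) := by
  intro u hu v hv s t hs ht hst
  constructor
  · intro i
    simp only [Pi.add_apply, Pi.smul_apply, smul_eq_mul]
    calc |s * u i + t * v i| ≤ |s * u i| + |t * v i| := abs_add_le _ _
      _ = s * |u i| + t * |v i| := by rw [abs_mul, abs_mul, abs_of_nonneg hs, abs_of_nonneg ht]
      _ ≤ s * (1 / 2) + t * (1 / 2) := by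
        have h1 := hu.1 i
        have h2 := hv.1 i
        gcongr
      _ = 1 / 2 := by rw [← add_mul, hst, one_mul]
  · have e : ∑ i, (s • u + t • v) i * (m i : ℝ) = s * ∑ i, u i * m i + t * ∑ i, v i * m i := by
      rw [mul_sum, mul_sum, ← sum_add_distrib]
      apply sum_congr rfl
      intro i _
      simp only [Pi.add_apply, Pi.smul_apply, smul_eq_mul]
      ring
    rw [e]
    calc |s * ∑ i, u i * m i + t * ∑ i, v i * m i|
        ≤ |s * ∑ i, u i * m i| + |t * ∑ i, v i * m i| := abs_add_le _ _
      _ = s * |∑ i, u i * m i| + t * |∑ i, v i * m i| := by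
        rw [abs_mul, abs_mul, abs_of_nonneg hs, abs_of_nonneg ht]
      _ ≤ s * (1 / 2) + t * (1 / 2) := by
        have h1 := hu.2
        have h2 := hv.2
        gcongr
      _ = 1 / 2 := by rw [← add_mul, hst, one_mul]

/-- the number of integer vectors of the box for which the form is at most `H` -/
noncomputable def cnt (m : ι → ℤ) (H : ℕ) : ℕ :=
  ((ibox ι H).filter fun c => |∑ i, c i * m i| ≤ (H : ℤ)).card

lemma cnt_eq (m : ι → ℤ) (H : ℕ) :
    Nat.card ↑(slab m ∩ (((2 * H + 1 : ℕ) : ℝ)⁻¹ •
      (Submodule.span ℤ (Set.range (Pi.basisFun ℝ ι)) : Set (ι → ℝ)))) = cnt m H := by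
  classical
  obtain ⟨n, hn⟩ : ∃ n : ℝ, n = ((2 * H + 1 : ℕ) : ℝ) := ⟨_, rfl⟩
  have hn0 : 0 < n := by rw [hn]; positivity
  have hn' : n = 2 * (H : ℝ) + 1 := by rw [hn]; push_cast; ring
  rw [← hn]
  have key : ∀ (z : ℤ), |(z : ℝ) / n| ≤ 1 / 2 ↔ |z| ≤ (H : ℤ) := by
    intro z
    rw [abs_div, abs_of_pos hn0, div_le_div_iff₀ hn0 two_pos]
    constructor
    · intro h
      have h1 : |(z : ℝ)| < (H : ℝ) + 1 := by rw [hn'] at h; linarith
      have h2 : |z| < (H : ℤ) + 1 := by exact_mod_cast h1
      omega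
    · intro h
      have h1 : |(z : ℝ)| ≤ H := by exact_mod_cast h
      rw [hn']
      linarith
  have hset : slab m ∩ (n⁻¹ • (Submodule.span ℤ (Set.range (Pi.basisFun ℝ ι)) : Set (ι → ℝ))) =
      (fun (c : ι → ℤ) (i : ι) => (c i : ℝ) / n) ''
        (((ibox ι H).filter fun c => |∑ i, c i * m i| ≤ (H : ℤ) : Finset (ι → ℤ)) :
          Set (ι → ℤ)) := by
    ext u
    simp only [Set.mem_inter_iff, Set.mem_image, Finset.mem_coe, mem_filter, mem_ibox]
    constructor
    · rintro ⟨⟨h1, h2⟩, h3⟩
      rw [Set.mem_smul_set] at h3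
      obtain ⟨z, hz, rfl⟩ := h3
      rw [SetLike.mem_coe, Module.Basis.mem_span_iff_repr_mem] at hz
      choose c hc using hz
      have hc' : ∀ i, (c i : ℝ) = z i := by
        intro i
        have := hc i
        rw [Pi.basisFun_repr] at this
        rw [← this]
        rfl
      have e1 : ∀ i, (n⁻¹ • z) i = (c i : ℝ) / n := by
        intro i
        rw [Pi.smul_apply, smul_eq_mul, hc' i]
        field_simp
      refine ⟨c, ⟨?_, ?_⟩, ?_⟩
      · intro i
        rw [← key, ← e1]
        exact h1 i
      · rw [← key]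
        refine le_trans (le_of_eq ?_) h2
        congr 1
        push_cast
        rw [sum_div]
        apply sum_congr rfl
        intro i _
        rw [e1]
        ring
      · funext i
        rw [e1]
    · rintro ⟨c, ⟨h1, h2⟩, rfl⟩
      refine ⟨⟨?_, ?_⟩, ?_⟩
      · intro i
        rw [key]
        exact h1 i
      · rw [← key] at h2
        refine le_trans (le_of_eq ?_) h2
        congr 1
        push_cast
        rw [sum_div]
        apply sum_congr rfl
        intro i _
        ring
      · rw [Set.mem_smul_set]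
        refine ⟨fun i => (c i : ℝ), ?_, ?_⟩
        · rw [SetLike.mem_coe, Module.Basis.mem_span_iff_repr_mem]
          intro i
          rw [Pi.basisFun_repr]
          exact ⟨c i, rfl⟩
        · funext i
          rw [Pi.smul_apply, smul_eq_mul]
          field_simp
  rw [hset]
  have hinj : Function.Injective (fun (c : ι → ℤ) (i : ι) => (c i : ℝ) / n) := by
    intro c c' h
    funext i
    have h1 := congrFun h i
    simp only at h1
    rw [div_left_inj' hn0.ne'] at h1
    exact_mod_cast h1
  have h1 := Set.ncard_image_of_injective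
    (((ibox ι H).filter fun c => |∑ i, c i * m i| ≤ (H : ℤ) : Finset (ι → ℤ)) : Set (ι → ℤ)) hinj
  rw [Set.ncard_coe_finset] at h1
  exact h1

lemma tendsto_cnt (m : ι → ℤ) :
    Tendsto (fun H : ℕ => (cnt m H : ℝ) / (2 * (H : ℝ) + 1) ^ Fintype.card ι) atTop
      (𝓝 (volume.real (slab m))) := by
  have h1 := tendsto_card_div_pow_atTop_volume (slab m) (slab_bounded m)
    (slab_closed m).measurableSet ((slab_convex m).addHaar_frontier volume)
  have h2 : Tendsto (fun H : ℕ => 2 * H + 1) atTop atTop :=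
    tendsto_atTop_mono (fun n => by omega : ∀ n : ℕ, n ≤ 2 * n + 1) tendsto_id
  have h3 := h1.comp h2
  refine h3.congr fun H => ?_
  simp only [Function.comp]
  rw [cnt_eq]
  push_cast
  rfl

/-- the values of the form in a finite set -/
lemma card_form_mem (m : ι → ℤ) {j : ι} (hj : m j ≠ 0) (H : ℕ) (W : Finset ℤ) :
    ((ibox ι H).filter fun c => ∑ i, c i * m i ∈ W).card ≤
      W.card * (2 * H + 1) ^ (Fintype.card ι - 1) := by
  classical
  have key := card_fiber (H := H) (S := (ibox ι H).filter fun c => ∑ i, c i * m i ∈ W)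
    (filter_subset _ _) {j} W.card ?_
  · rw [card_singleton] at key
    exact key
  intro b T hT hTb
  apply card_le_card_of_injOn (fun c => ∑ i, c i * m i)
  · intro c hc
    exact (mem_filter.1 (hT hc)).2
  · intro c hc c' hc' h
    simp only at h
    have h1 : ∑ i, c i * m i - ∑ i, c' i * m i = (c j - c' j) * m j := by
      rw [← sum_sub_distrib, ← sum_subset (subset_univ {j})]
      · rw [sum_singleton]
        ring
      · intro p _ hp
        rw [hTb c hc p hp, hTb c' hc' p hp, sub_self]
    rw [h, sub_self] at h1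
    have h2 : c j - c' j = 0 := by
      rcases mul_eq_zero.1 h1.symm with h3 | h3
      · exact h3
      · exact absurd h3 hj
    funext p
    by_cases hp : p ∈ ({j} : Finset ι)
    · rw [mem_singleton] at hp
      rw [hp]
      linarith
    · rw [hTb c hc p hp, hTb c' hc' p hp]

/-- the shifted count -/
noncomputable def cntv (m : ι → ℤ) (v : ℤ) (H : ℕ) : ℕ :=
  ((ibox ι H).filter fun c => |v - ∑ i, c i * m i| ≤ (H : ℤ)).card

lemma cntv_near (m : ι → ℤ) {j : ι} (hj : m j ≠ 0) (v : ℤ) (H : ℕ) :
    |(cntv m v H : ℝ) - cnt m H| ≤ (4 * v.natAbs + 2) * (2 * (H : ℝ) + 1) ^ (Fintype.card ι - 1) := by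
  classical
  obtain ⟨W, hW⟩ : ∃ W : Finset ℤ, W = Icc ((H : ℤ) - v.natAbs) (H + v.natAbs) ∪
    Icc (-(H : ℤ) - v.natAbs) (-H + v.natAbs) := ⟨_, rfl⟩
  have hWc : W.card ≤ 4 * v.natAbs + 2 := by
    rw [hW]
    refine (card_union_le _ _).trans ?_
    rw [Int.card_Icc, Int.card_Icc]
    omega
  have hb := card_form_mem m hj H W
  have hb' : (((ibox ι H).filter fun c => ∑ i, c i * m i ∈ W).card : ℝ) ≤
      (4 * v.natAbs + 2) * (2 * (H : ℝ) + 1) ^ (Fintype.card ι - 1) := by
    have h1 := hb.trans (Nat.mul_le_mul_right _ hWc)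
    exact_mod_cast h1
  have hva : ((v.natAbs : ℕ) : ℤ) = |v| := Int.natCast_natAbs v
  have h1 : ((ibox ι H).filter fun c => |v - ∑ i, c i * m i| ≤ (H : ℤ)) ⊆
      ((ibox ι H).filter fun c => |∑ i, c i * m i| ≤ (H : ℤ)) ∪
      ((ibox ι H).filter fun c => ∑ i, c i * m i ∈ W) := by
    intro c hc
    rw [mem_filter] at hc
    rw [mem_union, mem_filter, mem_filter]
    by_cases h : |∑ i, c i * m i| ≤ (H : ℤ)
    · exact Or.inl ⟨hc.1, h⟩
    · right
      refine ⟨hc.1, ?_⟩
      obtain ⟨s, hs⟩ : ∃ s, s = ∑ i, c i * m i := ⟨_, rfl⟩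
      rw [← hs] at h hc ⊢
      rw [hW, mem_union, mem_Icc, mem_Icc, hva]
      have h2 := abs_le.1 hc.2
      have h3 := le_abs_self v
      have h4 := neg_abs_le v
      rcases le_total 0 s with h5 | h5
      · rw [abs_of_nonneg h5] at h
        left
        omega
      · rw [abs_of_nonpos h5] at h
        right
        omega
  have h2 : ((ibox ι H).filter fun c => |∑ i, c i * m i| ≤ (H : ℤ)) ⊆
      ((ibox ι H).filter fun c => |v - ∑ i, c i * m i| ≤ (H : ℤ)) ∪
      ((ibox ι H).filter fun c => ∑ i, c i * m i ∈ W) := by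
    intro c hc
    rw [mem_filter] at hc
    rw [mem_union, mem_filter, mem_filter]
    by_cases h : |v - ∑ i, c i * m i| ≤ (H : ℤ)
    · exact Or.inl ⟨hc.1, h⟩
    · right
      refine ⟨hc.1, ?_⟩
      obtain ⟨s, hs⟩ : ∃ s, s = ∑ i, c i * m i := ⟨_, rfl⟩
      rw [← hs] at h hc ⊢
      rw [hW, mem_union, mem_Icc, mem_Icc, hva]
      have h2 := abs_le.1 hc.2
      have h3 := le_abs_self v
      have h4 := neg_abs_le v
      rcases le_total 0 (v - s) with h5 | h5
      · rw [abs_of_nonneg h5] at h
        right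
        omega
      · rw [abs_of_nonpos h5] at h
        left
        omega
  have c1 := (Nat.cast_le (α := ℝ)).2 ((card_le_card h1).trans (card_union_le _ _))
  have c2 := (Nat.cast_le (α := ℝ)).2 ((card_le_card h2).trans (card_union_le _ _))
  push_cast at c1 c2
  unfold cntv cnt
  rw [abs_le]
  constructor
  · linarith
  · linarith

lemma tendsto_cntv (m : ι → ℤ) (v : ℤ) (h : (∃ j, m j ≠ 0) ∨ v = 0) :
    Tendsto (fun H : ℕ => (cntv m v H : ℝ) / (2 * (H : ℝ) + 1) ^ Fintype.card ι) atTop
      (𝓝 (volume.real (slab m))) := by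
  rcases h with ⟨j, hj⟩ | rfl
  · have h1 := tendsto_cnt m
    have hcard : 1 ≤ Fintype.card ι := Fintype.card_pos_iff.2 ⟨j⟩
    have h2 : Tendsto (fun H : ℕ => ((cntv m v H : ℝ) - cnt m H) /
        (2 * (H : ℝ) + 1) ^ Fintype.card ι) atTop (𝓝 0) := by
      apply squeeze_zero_norm (a := fun H : ℕ => (4 * (v.natAbs : ℝ) + 2) / (2 * (H : ℝ) + 1))
      · intro H
        have hX : (0 : ℝ) < 2 * (H : ℝ) + 1 := by positivity
        rw [Real.norm_eq_abs, abs_div, abs_of_pos (pow_pos hX _), div_le_div_iff₀ (by positivity) hX]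
        have h3 := cntv_near m hj v H
        have e : (2 * (H : ℝ) + 1) ^ Fintype.card ι =
            (2 * (H : ℝ) + 1) ^ (Fintype.card ι - 1) * (2 * (H : ℝ) + 1) := by
          rw [← pow_succ]
          congr 1
          omega
        rw [e, ← mul_assoc]
        exact mul_le_mul_of_nonneg_right h3 hX.le
      · apply Tendsto.div_atTop tendsto_const_nhds
        apply tendsto_atTop_add_const_right
        exact Tendsto.const_mul_atTop two_pos tendsto_natCast_atTop_atTop
    have h3 := h1.add h2
    rw [add_zero] at h3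
    refine h3.congr fun H => ?_
    rw [← add_div]
    congr 1
    ring
  · refine (tendsto_cnt m).congr fun H => ?_
    unfold cnt cntv
    congr 2
    apply congrArg card
    apply filter_congr
    intro c _
    rw [zero_sub, abs_neg]

lemma slab_pos (m : ι → ℤ) : 0 < volume.real (slab m) := by
  obtain ⟨M, hM⟩ : ∃ M : ℝ, M = 1 + ∑ i, |(m i : ℝ)| := ⟨_, rfl⟩
  have hM1 : 1 ≤ M := by
    rw [hM]
    have : 0 ≤ ∑ i, |(m i : ℝ)| := sum_nonneg fun i _ => abs_nonneg _
    linarith
  have hM0 : 0 < M := by linarith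
  have hsub : Metric.ball (0 : ι → ℝ) (1 / (2 * M)) ⊆ slab m := by
    intro u hu
    rw [mem_ball_zero_iff] at hu
    have h1 : ∀ i, |u i| ≤ 1 / (2 * M) := by
      intro i
      have := norm_le_pi_norm u i
      rw [Real.norm_eq_abs] at this
      linarith
    constructor
    · intro i
      refine (h1 i).trans ?_
      rw [div_le_div_iff₀ (by positivity) two_pos]
      linarith
    · calc |∑ i, u i * m i| ≤ ∑ i, |u i * m i| := abs_sum_le_sum_abs _ _
        _ ≤ ∑ i, 1 / (2 * M) * |(m i : ℝ)| := by
          apply sum_le_sum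
          intro i _
          rw [abs_mul]
          exact mul_le_mul_of_nonneg_right (h1 i) (abs_nonneg _)
        _ = 1 / (2 * M) * ∑ i, |(m i : ℝ)| := by rw [mul_sum]
        _ ≤ 1 / (2 * M) * M := by
          apply mul_le_mul_of_nonneg_left _ (by positivity)
          rw [hM]
          linarith
        _ = 1 / 2 := by field_simp
  rw [measureReal_def, ENNReal.toReal_pos_iff]
  constructor
  · refine lt_of_lt_of_le ?_ (measure_mono hsub)
    exact Metric.measure_ball_pos _ _ (by positivity)
  · exact (slab_bounded m).measure_lt_top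

end

end Pool.Agent.R414.DV
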